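import Mathlib

namespace Pool.Agent.Results.MP_8f56b8_lc.Oracle

open Finset

/-- the rank axioms of a matroid on the finite ground set `S` -/
def IsRank {S : Type} [DecidableEq S] (r : Finset S → ℕ) : Prop :=
  (∀ A, r A ≤ A.card) ∧ (∀ A B, A ⊆ B → r A ≤ r B) ∧ ∀ A B, r (A ∪ B) + r (A ∩ B) ≤ r A + r B

/-- the objective of the matroid median problem -/
def Phi {S : Type} [DecidableEq S] (r : Finset S → ℕ) (F : List (Finset S)) (H : Finset S) : ℤ :=
  2 * (F.map fun A => (r (A ∪ H) : ℤ)).sum - F.length * r H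

/-- deterministic rank-oracle algorithms: output a set, or ask a rank and go on by the answer -/
inductive Alg (S : Type) : Type
  | out : Finset S → Alg S
  | ask : Finset S → (ℕ → Alg S) → Alg S

/-- the output with oracle `r` -/
def Alg.res {S : Type} (r : Finset S → ℕ) : Alg S → Finset S
  | .out H => H
  | .ask A k => (k (r A)).res r

/-- the number of oracle calls with oracle `r` -/
def Alg.calls {S : Type} (r : Finset S → ℕ) : Alg S → ℕ
  | .out _ => 0
  | .ask A k => (k (r A)).calls r + 1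

lemma hide {S : Type} [DecidableEq S] (r : Finset S → ℕ) (T : Alg S) : ∃ Q : Finset (Finset S),
    Q.card ≤ T.calls r ∧ ∀ r' : Finset S → ℕ, (∀ A ∈ Q, r' A = r A) → T.res r' = T.res r := by
  induction T with
  | out H => exact ⟨∅, by simp, fun _ _ => rfl⟩
  | ask A k ih =>
    obtain ⟨Q, h1, h2⟩ := ih (r A)
    refine ⟨insert A Q, (card_insert_le _ _).trans (by simpa [Alg.calls] using h1), fun r' h => ?_⟩
    simp only [Alg.res, h A (mem_insert_self _ _)]
    exact h2 r' fun B hB => h B (mem_insert_of_mem hB)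

variable {n : ℕ}

def col (A : Finset (Fin n × Fin 5)) (j : Fin n) : Finset (Fin 5) := univ.filter fun i => (j, i) ∈ A

def g (Y : Finset (Fin 5)) : ℕ := (if 4 ∈ Y then 1 else 0) + min 3 (Y.erase 4).card

def f (A : Finset (Fin n × Fin 5)) : ℕ := ∑ j, g (col A j)

def r0 (A : Finset (Fin n × Fin 5)) : ℕ := min (3 * n) (f A)

def mk (Y : Fin n → Finset (Fin 5)) : Finset (Fin n × Fin 5) := univ.filter fun x => x.2 ∈ Y x.1

def tf (b : Bool) : Finset (Fin 5) := if b then {0, 1} else {2, 3}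

def rr (τ : Fin n → Bool) (A : Finset (Fin n × Fin 5)) : ℕ :=
  if A = mk (fun j => {4} ∪ tf (τ j)) then 3 * n - 1 else r0 A

@[simp] lemma col_mk (Y : Fin n → Finset (Fin 5)) (j : Fin n) : col (mk Y) j = Y j := by
  ext; simp [col, mk]

@[simp] lemma col_union (A B : Finset (Fin n × Fin 5)) (j : Fin n) :
    col (A ∪ B) j = col A j ∪ col B j := by ext; simp [col]

@[simp] lemma col_inter (A B : Finset (Fin n × Fin 5)) (j : Fin n) :
    col (A ∩ B) j = col A j ∩ col B j := by ext; simp [col]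

lemma col_ext {A B : Finset (Fin n × Fin 5)} (h : ∀ j, col A j = col B j) : A = B := by
  ext ⟨j, i⟩; simpa [col] using congrArg (i ∈ ·) (h j)

lemma card_col (A : Finset (Fin n × Fin 5)) : A.card = ∑ j, (col A j).card := by
  rw [card_eq_sum_card_fiberwise (f := Prod.fst) (t := univ) (by simp)]
  refine sum_congr rfl fun j _ => card_bij (fun x _ => x.2) ?_ ?_ ?_
  · rintro ⟨a, b⟩ h; simp only [mem_filter] at h; obtain ⟨h, rfl⟩ := h; simpa [col] using h
  · rintro ⟨a, b⟩ h ⟨c, d⟩ h' e; simp only [mem_filter] at h h' e; rw [h.2.trans h'.2.symm, e]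
  · intro i hi; exact ⟨(j, i), by simpa [col] using hi, rfl⟩

lemma g1 : ∀ Y Z : Finset (Fin 5), g Y ≤ Y.card ∧ g Y ≤ g (Y ∪ Z) ∧
    g (Y ∪ Z) + g (Y ∩ Z) ≤ g Y + g Z := by decide +kernel

lemma g2 : ∀ (b : Bool) (Y : Finset (Fin 5)), g ({4} ∪ tf b) = 3 ∧ ({4} ∪ tf b).card = 3 ∧
    g (tf b) = 2 ∧ g (tf true ∪ tf b) + g (tf false ∪ tf b) = 5 ∧
    g (({4} ∪ tf b) ∩ Y) ≤ g Y ∧ (¬ Y ⊆ {4} ∪ tf b → g (({4} ∪ tf b) ∩ Y) < g Y) ∧
    2 + 3 * g Y ≤ 4 * g (tf b ∪ Y) ∧ (Y ≠ tf b → 2 + 3 * g Y < 4 * g (tf b ∪ Y)) ∧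
    14 + 3 * g Y ≤ 4 * g (tf true ∪ Y) + 4 * g (tf false ∪ Y) ∧
    (Y ≠ tf true → Y ≠ tf false → 14 + 3 * g Y < 4 * g (tf true ∪ Y) + 4 * g (tf false ∪ Y)) ∧
    ∀ c, (tf b ∪ Y = {4} ∪ tf c → 3 ≤ g (tf (!b) ∪ Y) ∧ tf (!b) ∪ Y ≠ {4} ∪ tf c) ∧
      ({4} ∪ tf b = {4} ∪ tf c → b = c) ∧ tf b ≠ {4} ∪ tf c := by decide +kernel

lemma f_mono {A B : Finset (Fin n × Fin 5)} (h : A ⊆ B) : f A ≤ f B := by
  rw [← union_eq_right.2 h]
  exact sum_le_sum fun j _ => by rw [col_union]; exact (g1 _ _).2.1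

lemma f_le (A : Finset (Fin n × Fin 5)) : f A ≤ A.card := by
  rw [card_col]; exact sum_le_sum fun j _ => (g1 _ ∅).1

lemma r0_rank : IsRank (r0 (n := n)) := by
  refine ⟨fun A => (min_le_right _ _).trans (f_le A), fun A B h => min_le_min_left _ (f_mono h),
    fun A B => ?_⟩
  have : f (A ∪ B) + f (A ∩ B) ≤ f A + f B := by
    simp only [f, ← sum_add_distrib, col_union, col_inter]
    exact sum_le_sum fun j _ => (g1 _ _).2.2
  have := f_mono (inter_subset_left (s₁ := A) (s₂ := B))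
  have := f_mono (inter_subset_right (s₁ := A) (s₂ := B))
  unfold r0; omega

lemma rr_rank (τ : Fin n → Bool) : IsRank (rr τ) := by
  obtain ⟨C, hC⟩ : ∃ C, C = mk (fun j => {4} ∪ tf (τ j)) := ⟨_, rfl⟩
  have c1 : f C = 3 * n := by simp only [hC, f, col_mk, (g2 _ ∅).1]; simp [mul_comm]
  have c2 : C.card = 3 * n := by simp only [hC, card_col, col_mk, (g2 _ ∅).2.1]; simp [mul_comm]
  have c3 : ∀ A, A ⊆ C → A ≠ C → f A < 3 * n := fun A h e =>
    (f_le A).trans_lt (c2 ▸ card_lt_card (ssubset_of_subset_of_ne h e))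
  have c4 : ∀ B, ¬ B ⊆ C → f (C ∩ B) < f B := fun B h => by
    obtain ⟨⟨j, i⟩, h1, h2⟩ := not_subset.1 h
    simp only [f, hC, col_inter, col_mk]
    refine sum_lt_sum (fun j _ => (g2 _ _).2.2.2.2.1) ⟨j, mem_univ _, (g2 _ _).2.2.2.2.2.1 fun e => h2 ?_⟩
    simpa [hC, mk] using e (show i ∈ col B j by simpa [col] using h1)
  have c5 : ∀ B, B ≠ C → rr τ (C ∪ B) + rr τ (C ∩ B) ≤ rr τ C + rr τ B := fun B e => by
    by_cases h : B ⊆ C
    · rw [union_eq_left.2 h, inter_eq_right.2 h]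
    by_cases h' : C ⊆ B
    · rw [union_eq_right.2 h', inter_eq_left.2 h', add_comm]
    have a1 := c4 B h
    have a2 := c3 (C ∩ B) inter_subset_left fun e => h' (inter_eq_left.1 e)
    simp only [rr, ← hC, if_true, if_neg e, if_neg (fun e => h (union_eq_left.1 e) : C ∪ B ≠ C),
      if_neg (fun e => h' (inter_eq_left.1 e) : C ∩ B ≠ C), r0]
    omega
  obtain ⟨r1, r2, r3⟩ := r0_rank (n := n)
  have c6 : ∀ A, rr τ A ≤ r0 A := fun A => by
    unfold rr; split_ifs with h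
    · rw [h, ← hC, r0, c1]; omega
    · rfl
  refine ⟨fun A => (c6 A).trans (r1 A), fun A B h => ?_, fun A B => ?_⟩
  · by_cases e : B = C
    · by_cases e' : A = C
      · rw [e, e']
      · have := c3 A (e ▸ h) e'
        simp only [rr, ← hC, e, e', if_true, if_false, r0]; omega
    · exact (c6 A).trans ((r2 A B h).trans (by rw [rr, ← hC, if_neg e]))
  · by_cases e : A = C
    · by_cases e' : B = C
      · simp [e, e']
      · exact e ▸ c5 B e'
    · by_cases e' : B = C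
      · rw [union_comm, inter_comm, add_comm (rr τ A)]; exact e' ▸ c5 A e
      · have := r3 A B
        have := c6 (A ∪ B)
        have := c6 (A ∩ B)
        have : rr τ A = r0 A := by rw [rr, ← hC, if_neg e]
        have : rr τ B = r0 B := by rw [rr, ← hC, if_neg e']
        omega

lemma heavy (hn : 2 ≤ n) (τ : Fin n → Bool) (H : Finset (Fin n × Fin 5)) :
    14 * n + 3 * rr τ H ≤ 4 * rr τ (mk (fun _ => tf true) ∪ H) + 4 * rr τ (mk (fun _ => tf false) ∪ H) ∧
    ((∀ σ : Fin n → Bool, H ≠ mk fun j => tf (σ j)) → 14 * n + 3 * rr τ H <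
      4 * rr τ (mk (fun _ => tf true) ∪ H) + 4 * rr τ (mk (fun _ => tf false) ∪ H)) := by
  obtain ⟨C, hC⟩ : ∃ C, C = mk (fun j => {4} ∪ tf (τ j)) := ⟨_, rfl⟩
  have k : ∀ b, mk (fun _ => tf b) ∪ H = C → rr τ H ≤ 3 * n - 1 ∧
      rr τ (mk (fun _ => tf b) ∪ H) = 3 * n - 1 ∧ rr τ (mk (fun _ => tf !b) ∪ H) = 3 * n := by
    intro b e
    have e' : ∀ j, tf b ∪ col H j = {4} ∪ tf (τ j) := fun j => by
      simpa only [hC, col_union, col_mk] using congrArg (col · j) e
    have a1 : rr τ (mk (fun _ => tf b) ∪ H) = 3 * n - 1 := by rw [e, hC, rr, if_pos rfl]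
    refine ⟨a1 ▸ (rr_rank τ).2.1 _ _ subset_union_right, a1, ?_⟩
    have a2 := card_nsmul_le_sum univ (fun j => g (col (mk (fun _ => tf !b) ∪ H) j)) 3 fun j _ => by
      simpa only [col_union, col_mk] using (((g2 b _).2.2.2.2.2.2.2.2.2.2 _).1 (e' j)).1
    rw [rr, if_neg fun e => (((g2 b _).2.2.2.2.2.2.2.2.2.2 _).1 (e' ⟨0, by omega⟩)).2 (by
      simpa only [col_union, col_mk] using congrArg (col · ⟨0, by omega⟩) e), r0, f]
    simp only [card_univ, Fintype.card_fin, smul_eq_mul] at a2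
    omega
  by_cases e1 : mk (fun _ => tf true) ∪ H = C
  · have := k _ e1; simp only [Bool.not_true] at this; omega
  by_cases e2 : mk (fun _ => tf false) ∪ H = C
  · have := k _ e2; simp only [Bool.not_false] at this; omega
  have a0 : rr τ H ≤ r0 H := by
    unfold rr; split_ifs with h
    · simp only [h, r0, f, col_mk, (g2 _ ∅).1]; simp; omega
    · rfl
  have s : ∀ (c : ℕ) (u v : Fin n → ℕ), (∀ j, c + u j ≤ v j) → n * c + ∑ j, u j ≤ ∑ j, v j ∧
      ((∃ j, c + u j < v j) → n * c + ∑ j, u j < ∑ j, v j) := fun c u v h =>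
    ⟨by simpa [sum_add_distrib] using sum_le_sum fun j (_ : j ∈ univ) => h j, fun ⟨j, hj⟩ => by
      simpa [sum_add_distrib] using sum_lt_sum (fun j (_ : j ∈ univ) => h j) ⟨j, mem_univ _, hj⟩⟩
  have s1 := fun b => s 2 _ _ fun j => (g2 b (col H j)).2.2.2.2.2.2.1
  have s2 := s 14 _ _ fun j => (g2 true (col H j)).2.2.2.2.2.2.2.2.1
  have s3 := s1 true
  have s4 := s1 false
  simp only [sum_add_distrib, ← mul_sum] at s2 s3 s4
  simp only [rr, ← hC, if_neg e1, if_neg e2, r0, f, col_union, col_mk] at a0 ⊢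
  refine ⟨by omega, fun h => ?_⟩
  have t1 : ∀ b, ∃ j, 2 + 3 * g (col H j) < 4 * g (tf b ∪ col H j) := fun b => by
    by_contra! hc
    exact h (fun _ => b) (col_ext fun j => by
      rw [col_mk]; by_contra e; exact absurd ((g2 b _).2.2.2.2.2.2.2.1 e) (not_lt.2 (hc j)))
  have t2 : ∃ j, 14 + 3 * g (col H j) < 4 * g (tf true ∪ col H j) + 4 * g (tf false ∪ col H j) := by
    by_contra! hc
    refine h (fun j => decide (col H j = tf true)) (col_ext fun j => ?_)
    rw [col_mk]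
    by_cases e : col H j = tf true
    · simp [e]
    · simp only [e, decide_false]
      by_contra e'; exact absurd ((g2 true _).2.2.2.2.2.2.2.2.2.1 e e') (not_lt.2 (hc j))
  have := s2.2 t2
  have := s3.2 (t1 _)
  have := s4.2 (t1 _)
  omega

def FF (n : ℕ) : List (Finset (Fin n × Fin 5)) :=
  List.replicate (12 * n) (mk fun _ => tf true) ++ (List.replicate (12 * n) (mk fun _ => tf false) ++
    (List.replicate (6 * n + 1) ∅ ++ [mk fun _ => {4}]))

lemma Phi_FF (r : Finset (Fin n × Fin 5) → ℕ) (H : Finset (Fin n × Fin 5)) : Phi r (FF n) H =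
    6 * n * (4 * r (mk (fun _ => tf true) ∪ H) + 4 * r (mk (fun _ => tf false) ∪ H) - 3 * r H) +
      2 * r (mk (fun _ => {4}) ∪ H) := by
  simp [Phi, FF]; ring

lemma mk_union (Y Z : Fin n → Finset (Fin 5)) : mk Y ∪ mk Z = mk fun j => Y j ∪ Z j :=
  col_ext fun j => by simp

lemma unique (hn : 2 ≤ n) (τ : Fin n → Bool) (H : Finset (Fin n × Fin 5))
    (h : H ≠ mk fun j => tf (τ j)) : Phi (rr τ) (FF n) (mk fun j => tf (τ j)) < Phi (rr τ) (FF n) H := by
  have a1 : rr τ (mk fun j => tf (τ j)) = 2 * n := by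
    rw [rr, if_neg fun e => ((g2 _ ∅).2.2.2.2.2.2.2.2.2.2 _).2.2 (by
      simpa only [col_mk] using congrArg (col · ⟨0, by omega⟩) e)]
    simp only [r0, f, col_mk, (g2 _ ∅).2.2.1]; simp; omega
  have a0 : ∀ A, rr τ A ≤ f A := fun A => by
    unfold rr; split_ifs with h
    · simp only [h, f, col_mk, (g2 _ ∅).1]; simp; omega
    · exact min_le_right _ _
  have a2 := add_le_add (a0 (mk (fun _ => tf true) ∪ mk fun j => tf (τ j)))
    (a0 (mk (fun _ => tf false) ∪ mk fun j => tf (τ j)))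
  simp only [f, col_union, col_mk, ← sum_add_distrib, (g2 _ ∅).2.2.2.1, sum_const, card_univ,
    Fintype.card_fin, smul_eq_mul] at a2
  have a3 : rr τ (mk (fun _ => {4}) ∪ mk fun j => tf (τ j)) = 3 * n - 1 := by
    rw [mk_union, rr, if_pos rfl]
  obtain ⟨b1, b2⟩ := heavy hn τ H
  rw [Phi_FF, Phi_FF, a1, a3, Nat.cast_sub (by omega)]
  zify at a2 b1
  push_cast
  by_cases e : ∃ σ : Fin n → Bool, H = mk fun j => tf (σ j)
  · obtain ⟨σ, rfl⟩ := e
    have a4 : rr τ (mk (fun _ => {4}) ∪ mk fun j => tf (σ j)) = 3 * n := by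
      rw [mk_union, rr, if_neg fun e => h (by
        rw [show σ = τ from funext fun j => ((g2 _ ∅).2.2.2.2.2.2.2.2.2.2 _).2.1 (by
          simpa only [col_mk] using congrArg (col · j) e)])]
      simp only [r0, f, col_mk, (g2 _ ∅).1]; simp [mul_comm]
    rw [a4]; push_cast; nlinarith
  · have := Nat.succ_le_of_lt (b2 (by simpa using e))
    zify at this
    nlinarith

theorem result (n : ℕ) (hn : 2 ≤ n) : ∃ F : List (Finset (Fin n × Fin 5)), F.length = 30 * n + 2 ∧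
    ∀ T : Alg (Fin n × Fin 5), (∀ r, IsRank r → ∀ H, Phi r F (T.res r) ≤ Phi r F H) →
      ∃ r, IsRank r ∧ 2 ^ n ≤ T.calls r + 1 := by
  refine ⟨FF n, by simp [FF]; ring, fun T hT => ⟨r0, r0_rank, ?_⟩⟩
  obtain ⟨Q, h1, h2⟩ := hide r0 T
  have : ∀ τ : Fin n → Bool, mk (fun j => {4} ∪ tf (τ j)) ∈ insert (mk (fun _ => {4}) ∪ T.res r0) Q := by
    intro τ
    by_contra hc
    rw [mem_insert, not_or] at hc
    have e := h2 (rr τ) fun A hA => if_neg fun e => hc.2 (by rwa [e] at hA)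
    refine absurd (hT _ (rr_rank τ) _) (not_le.2 (unique hn τ _ fun e' => hc.1 ?_))
    rw [← e, e', mk_union]
  have := card_le_card_of_injOn (s := univ) _ (fun τ _ => this τ) fun σ _ τ _ e =>
    funext fun j => ((g2 _ ∅).2.2.2.2.2.2.2.2.2.2 _).2.1 (by
      simpa only [col_mk] using congrArg (col · j) e)
  have := card_insert_le (mk (fun _ => {4}) ∪ T.res r0) Q
  simp only [card_univ, Fintype.card_fun, Fintype.card_bool, Fintype.card_fin] at *
  omega

end Pool.Agent.Results.MP_8f56b8_lc.Oracle
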